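import Pool.Agent.Helper28.OHS.Goals
import Pool.Agent.Helper53.OH.MCOR
import Pool.Agent.Helper75.OH.STEP
import Pool.Agent.Helper65.OH.GEO

/-!
# Machines with one head and descriptions of the tape: the steps in a cube, soundness (SLS)
-/

namespace Pool.Agent.Helper35.OHS

open Pool.Agent.Helper65.LinSpace Pool.Agent.Helper78.Mpc Pool.Agent.Helper28.Ram Finset Filter
open Pool.Agent.Helper65.OH (Prm OneHead Conf Par InBox co bz GoodQ Fns GEO_stmt STEP_stmt)
open Pool.Agent.Helper53.OH
open Pool.Agent.Helper28.OHS

theorem rn_succ (m : Prm) (b z n : ℕ) : rn m b z (n + 1) = m.loc b (rn m b z n) := rfl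

theorem ct_succ (m : Prm) (b z n : ℕ) :
    ct m b z (n + 1) = ct m b z n + act m b (rn m b z n) := by
  unfold ct
  rw [sum_range_succ]

theorem act_out {m : Prm} {b z : ℕ} (h : m.blk (z % 2 ^ m.sg) ≠ b) : act m b z = 0 := by
  unfold act
  rw [eq01_ne h, zero_mul]

theorem act_acc {m : Prm} {b z : ℕ} (h : accN (m.wq (z % 2 ^ m.sg)) = 1) : act m b z = 0 := by
  unfold act
  rw [h, Nat.sub_self, mul_zero]

theorem act_one {m : Prm} {b z : ℕ} (h : m.blk (z % 2 ^ m.sg) = b)
    (h2 : accN (m.wq (z % 2 ^ m.sg)) = 0) : act m b z = 1 := by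
  unfold act
  rw [h, h2]
  simp [eq01]

/-- SLS under the hypotheses GEO, STEP. -/
theorem sls' (hG : GEO_stmt) (hS : STEP_stmt) : SLS_stmt := by
  intro D A eA eN eW c w y m hP ho hF b t z h0 n
  induction n with
  | zero =>
    right
    have h1 : ct m b z 0 = 0 := by
      unfold ct
      exact Finset.sum_range_zero _
    rw [h1, Nat.add_zero]
    exact h0
  | succ n ih =>
    rw [rn_succ, ct_succ, loc_eq]
    set z' := rn m b z n with hz'
    split_ifs with hb
    · rcases ih with h1 | h1
      · obtain ⟨h2, h3⟩ := fail_step hG (v := z' / 2 ^ m.sg) h1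
        left
        rw [(split_lt h3).1]
        exact h2
      · by_cases hacc : (A.conf w y (t + ct m b z n)).q.head? = some true
        · have h2 : accN (m.wq (z' % 2 ^ m.sg)) = 1 := by
            rw [h1.good.wq]
            exact (accN_num _).2 hacc
          obtain ⟨h3, h4⟩ := acc_step (v := z' / 2 ^ m.sg) h2
          right
          rw [h3, h4, Nat.mod_add_div, act_acc h2, Nat.add_zero]
          exact h1
        · have h5 : accN (m.wq (z' % 2 ^ m.sg)) = 0 := by
            rw [h1.good.wq]
            exact accN_zero_of hacc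
          rcases (step_ok hG hS hP ho hF h1.good hb h1.dg hacc).1 with
            ⟨-, h2, h3⟩ | ⟨-, h2, h3, h4⟩
          · left
            rw [(split_lt h3).1]
            exact h2
          · right
            rw [act_one hb h5, ← Nat.add_assoc]
            refine ⟨by have := h1.le; omega, ?_, ?_, ?_⟩
            · rw [(split_lt h2.lt).1]
              exact h2
            · rw [(split_lt h2.lt).2]
              exact h3
            · intro x hx hxb
              rw [conf_succ, h4 x hx hxb]
              exact h1.out x hx hxb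
    · rw [act_out hb, Nat.add_zero]
      exact ih

/-- SLS. -/
theorem sls : SLS_stmt :=
  sls' Pool.Agent.Helper65.OH.GEO (Pool.Agent.Helper75.OH.STEP Pool.Agent.Helper65.OH.GEO)

end Pool.Agent.Helper35.OHS
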